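import Pool.Agent.H500.TH.Stm

/-!
# Project TH, PART A7: transport to `QBar` (helper328, for helper500)
-/

set_option autoImplicit false

namespace Pool.Agent.H328.TH.TKD

open NumberField IsDedekindDomain Filter Topology
open Pool.Agent.W401.Cheb (dens)
open Pool.Agent.W569.FM (OO GF)
open Pool.Agent.H500.HC (QBar ZBar jz jz_inj)
open Pool.Agent.H500.TH

theorem isAlgQ : @Algebra.IsAlgebraic ℚ QBar _ _ (DivisionRing.toRatAlgebra) := by
  have h : Algebra.IsAlgebraic ℚ (AlgebraicClosure ℚ) := AlgebraicClosure.isAlgebraic ℚ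
  have e : (DivisionRing.toRatAlgebra : Algebra ℚ QBar) =
    (AlgebraicClosure.instAlgebra ℚ : Algebra ℚ (AlgebraicClosure ℚ)) := Subsingleton.elim _ _
  rw [e]
  exact h

section iso

variable {E : Type} [Field E]

theorem exists_iso [NumberField E] (φ : E →+* QBar) :
    ∃ e : AlgebraicClosure E ≃+* QBar, ∀ x : E, e (algebraMap E (AlgebraicClosure E) x) = φ x := by
  let _ : Algebra E QBar := φ.toAlgebra
  have _ : @IsScalarTower ℚ E QBar _ _ (DivisionRing.toRatAlgebra : Algebra ℚ QBar).toSMul := by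
    apply IsScalarTower.of_algebraMap_eq'
    exact Subsingleton.elim _ _
  have _ : Algebra.IsAlgebraic ℚ QBar := isAlgQ
  have _ : Algebra.IsAlgebraic E QBar := Algebra.IsAlgebraic.tower_top (K := ℚ) E
  have _ : IsAlgClosure E QBar := ⟨inferInstance, inferInstance⟩
  let e : AlgebraicClosure E ≃ₐ[E] QBar := IsAlgClosure.equiv E (AlgebraicClosure E) QBar
  exact ⟨e.toRingEquiv, fun x => e.commutes x⟩

/-- `𝓞` of an isomorphism -/
noncomputable def eo (e : AlgebraicClosure E ≃+* QBar) : OO E ≃+* ZBar :=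
  RingOfIntegers.mapRingEquiv e

theorem eo_coe (e : AlgebraicClosure E ≃+* QBar) (x : OO E) :
    ((eo e x : ZBar) : QBar) = e (x : AlgebraicClosure E) := rfl

theorem eo_symm_coe (e : AlgebraicClosure E ≃+* QBar) (x : ZBar) :
    (((eo e).symm x : OO E) : AlgebraicClosure E) = e.symm (x : QBar) := rfl

theorem jz_coe (φ : E →+* QBar) (x : 𝓞 E) : ((jz φ x : ZBar) : QBar) = φ (x : E) := rfl

theorem smul_coe (g : GF E) (x : OO E) :
    ((g • x : OO E) : AlgebraicClosure E) = g (x : AlgebraicClosure E) := rfl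

end iso

theorem main : S_TKD0 → S_TKD := by
  intro h0 E F V T _ _ _ _ _ _ i j Vs A X hTV hA hX hgal hind hrel
  obtain ⟨e, he⟩ := exists_iso (j.comp i)
  have hXc : ∀ v s, (((eo e).symm (jz j (X v s)) : OO E) : AlgebraicClosure E) =
      e.symm (j ((X v s : 𝓞 F) : F)) := fun v s => rfl
  have hlim := h0 E V T Vs (fun v => (eo e).symm (A v)) (fun v s => (eo e).symm (jz j (X v s))) hTV
    (fun v => by
      intro h
      exact hA v ((map_eq_zero_iff _ (eo e).symm.injective).1 h))
    (fun v s => by
      intro h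
      have h1 := (map_eq_zero_iff _ (eo e).symm.injective).1 h
      exact hX v s ((map_eq_zero_iff _ (jz_inj j)).1 h1))
    (fun g => by
      let g' : QBar ≃+* QBar := (e.symm.trans g.toRingEquiv).trans e
      have hg' : ∀ x, g' x = e (g (e.symm x)) := fun x => rfl
      obtain ⟨p, hp⟩ := hgal g' (fun x => by
        have h1 : e.symm (j (i x)) = algebraMap E (AlgebraicClosure E) x := by
          rw [RingEquiv.symm_apply_eq]
          exact (he x).symm
        rw [hg', h1, AlgEquiv.commutes]
        exact he x)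
      refine ⟨p, fun v s => ?_⟩
      apply RingOfIntegers.coe_injective
      have h2 := hp v s
      rw [hg'] at h2
      have h3 : g (e.symm (j ((X v s : 𝓞 F) : F))) = e.symm (j ((X v (p s) : 𝓞 F) : F)) := by
        rw [RingEquiv.eq_symm_apply]
        exact h2
      exact h3)
    (fun n hn hprod => by
      apply hind n hn
      apply j.injective
      have h1 := congrArg e hprod
      rw [map_one] at h1
      rw [map_one, ← h1, map_prod, map_prod]
      refine Finset.prod_congr rfl fun v _ => ?_
      rw [map_prod, map_prod]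
      refine Finset.prod_congr rfl fun s _ => ?_
      rw [map_zpow₀, map_zpow₀, hXc, RingEquiv.apply_symm_apply])
    (by
      rintro ⟨m, c, hm, hmc⟩
      apply hrel
      refine ⟨m, c, hm, fun v => ?_⟩
      have h1 := congrArg e (hmc v)
      rw [map_pow, map_prod] at h1
      have h2 : e (((eo e).symm (A v) : OO E) : AlgebraicClosure E) = algebraMap ZBar QBar (A v) := by
        rw [eo_symm_coe, RingEquiv.apply_symm_apply]
      rw [h2] at h1
      rw [h1]
      refine Finset.prod_congr rfl fun s _ => ?_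
      rw [map_zpow₀, hXc, RingEquiv.apply_symm_apply])
  refine squeeze_zero (fun N => Pool.Agent.W528.Ord.dens_nonneg _ N)
    (fun N => Pool.Agent.W528.Ord.dens_mono ?_ N) hlim
  rintro lam ⟨k, _, ψ, hψ, a, ha⟩
  have hcomap : (RingHom.ker (ψ.comp (eo e).toRingHom)).comap (algebraMap (𝓞 E) (OO E)) =
      lam.asIdeal := by
    rw [← hψ]
    ext x
    rw [Ideal.mem_comap, RingHom.mem_ker, RingHom.mem_ker]
    have h1 : (eo e) (algebraMap (𝓞 E) (OO E) x) = jz (j.comp i) x := by
      apply RingOfIntegers.coe_injective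
      exact he (x : E)
    show ψ ((eo e) (algebraMap (𝓞 E) (OO E) x)) = 0 ↔ ψ (jz (j.comp i) x) = 0
    rw [h1]
  refine ⟨RingHom.ker (ψ.comp (eo e).toRingHom), ?_, hcomap, a, fun v => ?_⟩
  · have _ : (RingHom.ker (ψ.comp (eo e).toRingHom)).IsPrime := RingHom.ker_isPrime _
    have _ : Algebra.IsIntegral (𝓞 E) (OO E) := Algebra.IsIntegral.tower_top (R := ℤ)
    apply Ideal.isMaximal_of_isIntegral_of_isMaximal_comap (R := 𝓞 E)
    rw [hcomap]
    exact lam.isMaximal
  · rw [RingHom.mem_ker]
    show ψ ((eo e) ((eo e).symm (A v) - ∏ s, (eo e).symm (jz j (X v s)) ^ a s)) = 0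
    rw [map_sub, map_prod, RingEquiv.apply_symm_apply, map_sub, ha v, map_prod, sub_eq_zero]
    refine Finset.prod_congr rfl fun s _ => ?_
    rw [map_pow, RingEquiv.apply_symm_apply, map_pow]

end Pool.Agent.H328.TH.TKD
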